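import Pool.Agent.H97.LAY.Stmts4

/-!
# Row DC2 of the board `lay`
-/

set_option autoImplicit false

namespace Pool.LAY

/-- The two dichotomies at one decomposition. -/
private def DAt (δ : ℝ) (T : ℕ) (as bs : List ℕ) (x y : ℕ) (pre post : List ℕ) : Prop :=
  (δ * (T : ℝ) ^ (as.sum + x + 1 + y) ≤ (D (as ++ [x, 1, y]) pre : ℝ) ∨
    δ * (T : ℝ) ^ (1 + y + bs.sum) ≤ (D (1 :: y :: bs) post : ℝ)) ∧
  (δ * (T : ℝ) ^ (as.sum + x + 1) ≤ (D (as ++ [x, 1]) pre : ℝ) ∨
    δ * (T : ℝ) ^ (x + 1 + y + bs.sum) ≤ (D (x :: 1 :: y :: bs) post : ℝ))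

private theorem dat_mono {δ δ' : ℝ} {T : ℕ} {as bs : List ℕ} {x y : ℕ} {pre post : List ℕ}
    (h : DAt δ T as bs x y pre post) (hd : δ' ≤ δ) : DAt δ' T as bs x y pre post := by
  have key : ∀ (n : ℕ) (z : ℝ), δ * (T : ℝ) ^ n ≤ z → δ' * (T : ℝ) ^ n ≤ z := fun n z hz =>
    (mul_le_mul_of_nonneg_right hd (by positivity)).trans hz
  exact ⟨h.1.imp (key _ _) (key _ _), h.2.imp (key _ _) (key _ _)⟩

theorem DC2 (h1 : KPLStmt) (h2 : KPMStmt) : DC2Stmt := by
  intro ls hg c hc
  obtain ⟨-, hpos, -, -, hgd⟩ := hg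
  have key : ∀ m : ℕ, ∃ δ ε : ℝ, 0 < δ ∧ 0 < ε ∧ ∃ T0 : ℕ, ∀ (pre post : List ℕ) (s t T : ℕ),
      OptL ls (pre ++ [s, t] ++ post) → (pre ++ [s, t] ++ post).sum = T → T0 ≤ T →
      ((s + t : ℕ) : ℝ) ≤ ε * (T : ℝ) →
      c * (T : ℝ) ^ ls.sum ≤ (D ls (pre ++ [s, t] ++ post) : ℝ) →
      ∀ as x y bs, as.length < m → ls = as ++ x :: 1 :: y :: bs →
        DAt δ T as bs x y pre post := by
    intro m
    induction m with
    | zero =>
      exact ⟨1, 1, one_pos, one_pos, 0, fun _ _ _ _ _ _ _ _ _ _ as _ _ _ h => by omega⟩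
    | succ m ih =>
      obtain ⟨δ, ε, hδ, hε, T0, H⟩ := ih
      by_cases hex : ∃ as x y bs, as.length = m ∧ ls = as ++ x :: 1 :: y :: bs
      · obtain ⟨as, x, y, bs, hl, he⟩ := hex
        have hx := hgd as x y bs he
        have ha : ∀ l ∈ as, 1 ≤ l := fun l hl => hpos l (by rw [he]; simp [hl])
        have hb : ∀ l ∈ bs, 1 ≤ l := fun l hl => hpos l (by rw [he]; simp [hl])
        obtain ⟨δ1, ε1, hδ1, hε1, T1, H1⟩ := h1 as bs x y ha hb hx.1 (by omega) c hc
        obtain ⟨δ2, ε2, hδ2, hε2, T2, H2⟩ := h2 as bs x y ha hb (by omega) hx.2.1 c hc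
        refine ⟨min δ (min δ1 δ2), min ε (min ε1 ε2), lt_min hδ (lt_min hδ1 hδ2),
          lt_min hε (lt_min hε1 hε2), max T0 (max T1 T2), ?_⟩
        intro pre post s t T ho hs hT hst hD as' x' y' bs' hl' he'
        have hT0 : T0 ≤ T := le_trans (le_max_left _ _) hT
        have hT1 : T1 ≤ T := le_trans (le_trans (le_max_left _ _) (le_max_right _ _)) hT
        have hT2 : T2 ≤ T := le_trans (le_trans (le_max_right _ _) (le_max_right _ _)) hT
        have hTn : (0 : ℝ) ≤ (T : ℝ) := Nat.cast_nonneg _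
        have e0 : ((s + t : ℕ) : ℝ) ≤ ε * (T : ℝ) :=
          hst.trans (mul_le_mul_of_nonneg_right (min_le_left _ _) hTn)
        have e1 : ((s + t : ℕ) : ℝ) ≤ ε1 * (T : ℝ) :=
          hst.trans (mul_le_mul_of_nonneg_right ((min_le_right _ _).trans (min_le_left _ _)) hTn)
        have e2 : ((s + t : ℕ) : ℝ) ≤ ε2 * (T : ℝ) :=
          hst.trans (mul_le_mul_of_nonneg_right ((min_le_right _ _).trans (min_le_right _ _)) hTn)
        rcases Nat.lt_or_ge as'.length m with hlt | hge
        · exact dat_mono (H pre post s t T ho hs hT0 e0 hD as' x' y' bs' hlt he') (min_le_left _ _)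
        · have hlen : as'.length = as.length := by omega
          have hap : as' ++ x' :: 1 :: y' :: bs' = as ++ x :: 1 :: y :: bs := by rw [← he', ← he]
          obtain ⟨r1, r2⟩ := List.append_inj hap hlen
          simp only [List.cons.injEq, true_and] at r2
          obtain ⟨r2, r3, r4⟩ := r2
          subst r1 r2 r3 r4
          rw [he] at ho hD
          have k1 := H1 pre post s t T ho hs hT1 e1 hD
          have k2 := H2 pre post s t T ho hs hT2 e2 hD
          have kk : DAt (min δ1 δ2) T as' bs' x' y' pre post := by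
            refine ⟨?_, ?_⟩
            · refine k1.imp ?_ ?_ <;> intro h <;>
                exact (mul_le_mul_of_nonneg_right (min_le_left _ _) (by positivity)).trans h
            · refine k2.imp ?_ ?_ <;> intro h <;>
                exact (mul_le_mul_of_nonneg_right (min_le_right _ _) (by positivity)).trans h
          exact dat_mono kk (min_le_right _ _)
      · refine ⟨δ, ε, hδ, hε, T0, ?_⟩
        intro pre post s t T ho hs hT hst hD as' x' y' bs' hl' he'
        rcases Nat.lt_or_ge as'.length m with hlt | hge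
        · exact H pre post s t T ho hs hT hst hD as' x' y' bs' hlt he'
        · exact absurd ⟨as', x', y', bs', by omega, he'⟩ hex
  obtain ⟨δ, ε, hδ, hε, T0, H⟩ := key ls.length
  refine ⟨δ, ε, hδ, hε, T0, ?_⟩
  intro pre post s t T ho hs hT hst hD as x y bs he
  refine H pre post s t T ho hs hT hst hD as x y bs ?_ he
  rw [he]
  simp

end Pool.LAY
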