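import Pool.Agent.H97.LAY.Stmts

/-!
# Board `lay`, row DCH
-/

set_option autoImplicit false

namespace Pool.LAY

theorem DCH (h1 : PIVStmt) : DCHStmt := by
  intro ls pre post s t c δ ε hls hT hε0 hε1 hc hst hD as l bs hl
  subst hl
  have hl1 : 1 ≤ l := hls l (by simp)
  have h2 := h1 as bs pre [s, t] post l (fun a ha => hls a (by simp [ha]))
    (fun a ha => hls a (by simp [ha])) hl1
  generalize hTT : (pre ++ [s, t] ++ post).sum = T at *
  by_contra h3
  push Not at h3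
  obtain ⟨h4, h5⟩ := h3
  have hT' : (0 : ℝ) < T := by exact_mod_cast hT
  have h6 : (D (as ++ l :: bs) (pre ++ [s, t] ++ post) : ℝ) ≤
      D (as ++ [l]) pre * (T : ℝ) ^ bs.sum + (T : ℝ) ^ as.sum * D (l :: bs) post +
        ((s + t : ℕ) : ℝ) ^ l * (T : ℝ) ^ (as.sum + bs.sum) := by
    have : [s, t].sum = s + t := by simp
    rw [this] at h2
    exact_mod_cast h2
  have e1 : (D (as ++ [l]) pre : ℝ) * (T : ℝ) ^ bs.sum <
      δ * (T : ℝ) ^ (as.sum + l + bs.sum) := by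
    rw [pow_add (T : ℝ) (as.sum + l), ← mul_assoc]
    exact mul_lt_mul_of_pos_right h4 (by positivity)
  have e2 : (T : ℝ) ^ as.sum * (D (l :: bs) post : ℝ) <
      δ * (T : ℝ) ^ (as.sum + l + bs.sum) := by
    rw [show δ * (T : ℝ) ^ (as.sum + l + bs.sum) = (T : ℝ) ^ as.sum * (δ * (T : ℝ) ^ (l + bs.sum)) by
      rw [add_assoc, pow_add]; ring]
    exact mul_lt_mul_of_pos_left h5 (by positivity)
  have e3 : ((s + t : ℕ) : ℝ) ^ l * (T : ℝ) ^ (as.sum + bs.sum) ≤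
      ε * (T : ℝ) ^ (as.sum + l + bs.sum) := by
    have e4 : ((s + t : ℕ) : ℝ) ^ l ≤ (ε * T) ^ l :=
      pow_le_pow_left₀ (by positivity) hst l
    have e5 : ε ^ l ≤ ε := by
      calc ε ^ l ≤ ε ^ 1 := pow_le_pow_of_le_one hε0 hε1 hl1
        _ = ε := pow_one ε
    calc ((s + t : ℕ) : ℝ) ^ l * (T : ℝ) ^ (as.sum + bs.sum) ≤
        (ε * T) ^ l * (T : ℝ) ^ (as.sum + bs.sum) :=
          mul_le_mul_of_nonneg_right e4 (by positivity)
      _ = ε ^ l * (T : ℝ) ^ (as.sum + l + bs.sum) := by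
        rw [mul_pow, pow_add (T : ℝ) (as.sum + l), pow_add, pow_add]
        ring
      _ ≤ ε * (T : ℝ) ^ (as.sum + l + bs.sum) :=
        mul_le_mul_of_nonneg_right e5 (by positivity)
  have hs : (as ++ l :: bs).sum = as.sum + l + bs.sum := by
    simp [add_assoc]
  rw [hs] at hD
  have e6 : (2 * δ + ε) * (T : ℝ) ^ (as.sum + l + bs.sum) ≤
      c * (T : ℝ) ^ (as.sum + l + bs.sum) :=
    mul_le_mul_of_nonneg_right hc (by positivity)
  nlinarith [e1, e2, e3, h6, hD, e6]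

end Pool.LAY
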