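import Pool.Agent.H97.LAY.Stmts5

/-!
# Layered permutations: row SCA of the board `lay`
-/

set_option autoImplicit false

namespace Pool.LAY

lemma SCA_nonneg (ls : List ℕ) (xs : List ℝ) (h : NN xs) : 0 ≤ Q ls xs := by
  induction xs generalizing ls with
  | nil =>
    cases ls with
    | nil => simp [Q]
    | cons l ls => simp [Q]
  | cons x xs ih =>
    have h2 : NN xs := fun y hy => h y (List.mem_cons_of_mem _ hy)
    have hx : 0 ≤ x := h x List.mem_cons_self
    cases ls with
    | nil => simp [Q]
    | cons l ls =>
      simp only [Q]
      have h3 := ih ls h2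
      have h4 := ih (l :: ls) h2
      positivity

theorem SCA : SCAStmt := by
  intro cs rs pre1 post x s A hA hlen hpre hpost hx hs
  induction pre1 generalizing cs with
  | nil =>
    cases cs with
    | nil => simp at hlen
    | cons a cs' =>
      have ha : A ≤ a := hA a List.mem_cons_self
      simp only [List.nil_append, List.cons_append, Q]
      have h1 : 0 ≤ Q (cs' ++ rs) post := SCA_nonneg _ _ hpost
      have h2 : s ^ A ≤ s ^ a := pow_le_pow_right₀ hs ha
      have h3 : 0 ≤ x ^ a * Q (cs' ++ rs) post := by positivity
      rw [mul_pow]
      nlinarith [mul_le_mul_of_nonneg_left h2 h3]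
  | cons y pre' ih =>
    cases cs with
    | nil => simp at hlen
    | cons a cs' =>
      have hpre' : NN pre' := fun z hz => hpre z (List.mem_cons_of_mem _ hz)
      have hy : 0 ≤ y := hpre y List.mem_cons_self
      simp only [List.length_cons] at hlen
      have e1 := ih cs' (fun b hb => hA b (List.mem_cons_of_mem _ hb)) (by omega) hpre'
      have e2 := ih (a :: cs') hA (by simp only [List.length_cons]; omega) hpre'
      simp only [List.cons_append, Q] at e2 ⊢
      have hya : 0 ≤ y ^ a := pow_nonneg hy a
      have e3 := mul_le_mul_of_nonneg_left e1 hya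
      linarith

end Pool.LAY
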