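import Pool.Agent.H97.LAY.Stmts

/-!
# Board `lay`, row W12
-/

set_option autoImplicit false

namespace Pool.LAY

theorem W12aux (h1 : AMGStmt) (b : ℕ) (hb : 2 ≤ b) : ∀ (ys : List ℝ) (z : ℝ), NN ys → 0 ≤ z →
    4 * ((b : ℝ) + 1) * (z * Q [b] ys + Q [1, b] ys) ≤ 3 * (z + ys.sum) ^ b * ys.sum := by
  intro ys
  induction ys with
  | nil =>
    intro z _ _
    simp [Q]
  | cons y ys ih =>
    intro z hy hz
    have hy0 : 0 ≤ y := hy y (by simp)
    have hys : NN ys := fun x hx => hy x (by simp [hx])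
    have hS : 0 ≤ ys.sum := List.sum_nonneg hys
    have h2 := ih (z + y) hys (by linarith)
    have h3 := h1 b y z hb hy0 hz
    have h4 : 4 * ((b : ℝ) + 1) * (z * y ^ b) ≤ 3 * (z + y + ys.sum) ^ b * y := by
      have e1 : y ^ b = y ^ (b - 1) * y := by
        rw [← pow_succ]
        congr 1
        omega
      have e2 : (y + z) ^ b ≤ (z + y + ys.sum) ^ b :=
        pow_le_pow_left₀ (by linarith) (by linarith) b
      calc 4 * ((b : ℝ) + 1) * (z * y ^ b) = 4 * ((b : ℝ) + 1) * (y ^ (b - 1) * z) * y := by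
            rw [e1]
            ring
        _ ≤ 3 * (y + z) ^ b * y := mul_le_mul_of_nonneg_right h3 hy0
        _ ≤ 3 * (z + y + ys.sum) ^ b * y :=
          mul_le_mul_of_nonneg_right (by linarith) hy0
    have e3 : Q [b] (y :: ys) = y ^ b + Q [b] ys := by simp [Q]
    have e4 : Q [1, b] (y :: ys) = y * Q [b] ys + Q [1, b] ys := by simp [Q]
    have e5 : (y :: ys).sum = y + ys.sum := by simp
    rw [e3, e4, e5, show z + (y + ys.sum) = z + y + ys.sum by ring]
    have e6 : 4 * ((b : ℝ) + 1) * (z * (y ^ b + Q [b] ys) + (y * Q [b] ys + Q [1, b] ys)) =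
        4 * ((b : ℝ) + 1) * (z * y ^ b) +
          4 * ((b : ℝ) + 1) * ((z + y) * Q [b] ys + Q [1, b] ys) := by ring
    have e7 : 3 * (z + y + ys.sum) ^ b * (y + ys.sum) =
        3 * (z + y + ys.sum) ^ b * y + 3 * (z + y + ys.sum) ^ b * ys.sum := by ring
    rw [e6, e7]
    exact add_le_add h4 h2

theorem W12 (h1 : AMGStmt) : W12Stmt := by
  intro b ys hb hys
  have h := W12aux h1 b hb ys 0 hys le_rfl
  rw [zero_mul, zero_add, zero_add, mul_assoc 3, ← pow_succ] at h
  exact h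

end Pool.LAY
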